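import Pool.Agent.Work.MP_b19acb_nt.Final

/-!
# Splicing zeta-like multizeta tuples over `F_2[t]`

`K = F_2(t)` is `RatFunc (ZMod 2)`, `K_∞ = F_2((1/t))` is its completion at infinity
`RatFunc.CompletionAtInfty (ZMod 2)`, `mzv s` is the multizeta value `ζ(s_1, ..., s_r)`, the sum of
`1/(a_1^{s_1} ... a_r^{s_r})` over all monic `a_i` with `deg a_1 > ... > deg a_r`, and
`ZetaLike s` says that the depth is at least 2 and `ζ(s_1, ..., s_r)/ζ(s_1 + ... + s_r)` lies in `K`
(file `Pool/Agent/Work/MP_b19acb_nt/MDefs.lean`).  `Fam` is an explicit list of six families of tuples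
(file `Pool/Agent/Work/MP_b19acb_nt/FamDefs.lean`).

Strategy.  The power sums are `S_d(k) = X_d^k A_k(u_d)` with polynomials `A_k` over `K`,
`X_d = S_0(1) + ... + S_{d-1}(1)`, `u_d = S_d(1)/X_d`.  If `s` is zeta-like then a lifting theorem for
linear relations (simultaneous Padé approximation, evaluated at `t_d = θ^(-2^(d+1))`) shows that for
every suffix of `s` the partial sums are `X_d^w F(u_d)` with a polynomial `F` of degree at most `w/2`
which satisfies the functional equation `(1+u)^w F(u^2/(D(1+u)^2)) = F(u) + A_a(u) B(u)`,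
`D = θ^2 + θ`.  Its Newton polygons at infinity and at the points `u_i` force the tuple to be in one of
the six families, which in turn are summed explicitly.
-/

namespace Pool.Agent.Results.MP_b19acb_nt.SplicingZetaLike

open Pool.Agent.ZL

open scoped Valued in
theorem summable_mzv {s : List ℕ} (hs : ∀ a ∈ s, 1 ≤ a) :
    Summable fun a : Idx s.length => ∏ i, ((toKinf (a.1 i))⁻¹) ^ s.get i := by
  have h := theSetup.hasSum_zeta (ψ := algebraMap (Polynomial (ZMod 2)) (RatFunc (ZMod 2)))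
    (by rw [theSetup_θ, RatFunc.algebraMap_X]) hs
  rw [theSetup_φ] at h
  exact h.summable

open scoped Valued in
theorem mzv_single_ne {w : ℕ} (hw : 1 ≤ w) : mzv [w] ≠ 0 := by
  rw [mzv_eq (s := [w]) (by simpa using hw)]
  exact theSetup.zeta_single_ne hw

/-- (1) **Q1**: let `r ≥ 3`, `2 ≤ k ≤ r - 1`, let `s = (s_1, ..., s_r)` be a tuple of positive integers
such that `(s_1, ..., s_k)` and `(s_k, ..., s_r)` are zeta-like and the weight of `s` is `2^n` or
`2^n - 1` for some `n ≥ 1`.  Unless both tuples equal `(1,1)`, the tuple `s` is zeta-like.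
(2) A tuple of positive integers (of any depth) is zeta-like if and only if it belongs to the explicit
list `Fam`.
(3) The series defining the multizeta values converge, and `ζ(w) ≠ 0`. -/
theorem result :
    (∀ (s : List ℕ) (k : ℕ), (∀ a ∈ s, 1 ≤ a) → 3 ≤ s.length → 2 ≤ k → k ≤ s.length - 1 →
      ZetaLike (s.take k) → ZetaLike (s.drop (k - 1)) →
      (∃ n, 1 ≤ n ∧ (s.sum = 2 ^ n ∨ s.sum = 2 ^ n - 1)) →
      ¬ (s.take k = [1, 1] ∧ s.drop (k - 1) = [1, 1]) → ZetaLike s) ∧
    (∀ s : List ℕ, (∀ a ∈ s, 1 ≤ a) → (ZetaLike s ↔ Fam s)) ∧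
    (∀ s : List ℕ, (∀ a ∈ s, 1 ≤ a) →
      Summable fun a : Idx s.length => ∏ i, ((toKinf (a.1 i))⁻¹) ^ s.get i) ∧
    (∀ w : ℕ, 1 ≤ w → mzv [w] ≠ 0) :=
  ⟨fun _ _ hs hr hk hk' h1 h2 hw hne => splice hs hk (by omega) h1 h2 hw hne,
    fun _ hs => zetaLike_iff hs, fun _ hs => summable_mzv hs, fun _ hw => mzv_single_ne hw⟩

end Pool.Agent.Results.MP_b19acb_nt.SplicingZetaLike
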